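import Pool.Agent.W345.VO.Stm

/-!
# VO-CIR: the span of a chain is irreducible
-/

set_option autoImplicit false

namespace Pool.Agent.W18.VO

open Pool.Agent.W345.VO

universe u

theorem cir : S_KK.{u} → S_PSK.{u} → S_CST.{u} → S_CIR.{u} := by
  intro hKK hPSK hCST M _ _ ρ k y hc
  obtain ⟨hst, hgr⟩ := hCST M ρ k y hc
  have hyP : ∀ j, y j ∈ ρ.PS (Set.range y) := by
    intro j
    rw [Rep.PS, Submodule.mem_sInf]
    intro S hS
    exact hS.1 ⟨j, rfl⟩
  refine ⟨hst, hgr, ?_, ?_⟩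
  · intro h0
    have := hyP 0
    rw [h0, Submodule.mem_bot] at this
    exact hc.ne 0 this
  intro N hNs hNg hNP
  by_cases hN0 : N = ⊥
  · exact Or.inl hN0
  right
  refine le_antisymm hNP ?_
  obtain ⟨K, hK1, hK2, hK3, hK4⟩ := hKK M ρ
  obtain ⟨_, hP2, _, _⟩ := hPSK M ρ K hK1 hK2 (Set.range y) (by
    rintro _ ⟨j, rfl⟩
    exact hc.om j)
  have hex : ∃ d : ℕ, N ⊓ ρ.deg d ≠ ⊥ := by
    by_contra hcon
    push Not at hcon
    apply hN0
    unfold Rep.Gr at hNg
    rw [hNg]
    simp [hcon]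
  classical
  set d := Nat.find hex with hd
  have hdn : N ⊓ ρ.deg d ≠ ⊥ := Nat.find_spec hex
  have hmin : ∀ e < d, N ⊓ ρ.deg e = ⊥ := fun e he => by
    by_contra hcon
    exact Nat.find_min hex he hcon
  obtain ⟨w, hw, hw0⟩ := Submodule.exists_mem_ne_zero_of_ne_bot hdn
  have hom : ρ.Om w := by
    intro n hn
    have h1 := ρ.h_deg n d w hw.2
    by_cases hdn' : (d : ℤ) - n < 0
    · exact h1.2 hdn'
    · push Not at hdn'
      have h2 : ((((d : ℤ) - n).toNat : ℕ) : ℤ) = d - n := Int.toNat_of_nonneg hdn'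
      have h3 := h1.1 _ h2
      have h4 : ((d : ℤ) - n).toNat < d := by omega
      have h5 : ρ.h n w ∈ N ⊓ ρ.deg ((d : ℤ) - n).toNat := ⟨(hNs n w hw.1).1, h3⟩
      rw [hmin _ h4, Submodule.mem_bot] at h5
      exact h5
  have hspan := hP2 w (hNP hw.1) (hK1 w hom)
  rw [Finsupp.mem_span_range_iff_exists_finsupp] at hspan
  obtain ⟨f, hf⟩ := hspan
  have key : ∀ (s : Finset ℤ) (f : ℤ → ℂ), ∑ j ∈ s, f j • y j ∈ N → ∀ j ∈ s, f j • y j ∈ N := by
    intro s
    induction s using Finset.induction_on with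
    | empty => simp
    | insert j0 s hj0 ih =>
      intro f hx
      have h1 : ρ.h 0 (∑ j ∈ insert j0 s, f j • y j) -
          ((k + 2 * j0 : ℤ) : ℂ) • (∑ j ∈ insert j0 s, f j • y j) ∈ N :=
        N.sub_mem (hNs 0 _ hx).1 (N.smul_mem _ hx)
      have h2 : ρ.h 0 (∑ j ∈ insert j0 s, f j • y j) -
          ((k + 2 * j0 : ℤ) : ℂ) • (∑ j ∈ insert j0 s, f j • y j) =
          ∑ j ∈ s, (f j * (((k + 2 * j : ℤ) : ℂ) - ((k + 2 * j0 : ℤ) : ℂ))) • y j := by
        rw [map_sum, Finset.smul_sum, ← Finset.sum_sub_distrib, Finset.sum_insert hj0]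
        have h3 : ∀ j, ρ.h 0 (f j • y j) - ((k + 2 * j0 : ℤ) : ℂ) • f j • y j =
            (f j * (((k + 2 * j : ℤ) : ℂ) - ((k + 2 * j0 : ℤ) : ℂ))) • y j := by
          intro j
          rw [map_smul, hc.eig j, smul_smul, smul_smul, ← sub_smul]
          congr 1
          ring
        rw [h3 j0, sub_self, mul_zero, zero_smul, zero_add]
        exact Finset.sum_congr rfl fun j _ => h3 j
      rw [h2] at h1
      have h4 := ih _ h1
      have h5 : ∀ j ∈ s, f j • y j ∈ N := by
        intro j hj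
        have hne : ((k + 2 * j : ℤ) : ℂ) - ((k + 2 * j0 : ℤ) : ℂ) ≠ 0 := by
          rw [sub_ne_zero]
          intro h6
          have h7 : k + 2 * j = k + 2 * j0 := by exact_mod_cast h6
          have h8 : j = j0 := by omega
          exact hj0 (h8 ▸ hj)
        have h6 := N.smul_mem ((((k + 2 * j : ℤ) : ℂ) - ((k + 2 * j0 : ℤ) : ℂ))⁻¹) (h4 j hj)
        rw [smul_smul] at h6
        have h7 : (((k + 2 * j : ℤ) : ℂ) - ((k + 2 * j0 : ℤ) : ℂ))⁻¹ *
            (f j * (((k + 2 * j : ℤ) : ℂ) - ((k + 2 * j0 : ℤ) : ℂ))) = f j := by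
          field_simp
        rwa [h7] at h6
      intro j hj
      rw [Finset.mem_insert] at hj
      rcases hj with rfl | hj
      · rw [Finset.sum_insert hj0] at hx
        have h6 : ∑ j ∈ s, f j • y j ∈ N := N.sum_mem h5
        have h7 := N.sub_mem hx h6
        rwa [add_sub_cancel_right] at h7
      · exact h5 j hj
  have hw' : ∑ j ∈ f.support, f j • y j = w := hf
  have hall := key f.support f (by rw [hw']; exact hw.1)
  obtain ⟨j0, hj0⟩ : ∃ j, y j ∈ N := by
    by_contra hcon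
    push Not at hcon
    apply hw0
    rw [← hw']
    refine Finset.sum_eq_zero fun j hj => ?_
    have h1 : f j ≠ 0 := Finsupp.mem_support_iff.1 hj
    have h2 := N.smul_mem (f j)⁻¹ (hall j hj)
    rw [smul_smul, inv_mul_cancel₀ h1, one_smul] at h2
    exact absurd h2 (hcon j)
  have hup : ∀ j, y j ∈ N → y (j + 1) ∈ N := fun j hj => by
    rw [← hc.up j]
    exact (hNs _ _ hj).2.1
  have hdown : ∀ j, y j ∈ N → y (j - 1) ∈ N := fun j hj => by
    rw [← hc.down j]
    exact (hNs _ _ hj).2.2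
  have hj : ∀ j, y j ∈ N := by
    intro j
    have h1 : ∀ n : ℤ, y (j0 + n) ∈ N := by
      intro n
      induction n using Int.induction_on with
      | zero => simpa using hj0
      | succ i hi =>
        have := hup _ hi
        rwa [add_assoc] at this
      | pred i hi =>
        have := hdown _ hi
        rwa [add_sub_assoc] at this
    have := h1 (j - j0)
    rwa [add_sub_cancel] at this
  rw [Rep.PS]
  refine sInf_le ⟨?_, ?_⟩
  · rintro _ ⟨j, rfl⟩
    exact hj j
  · intro l w hw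
    exact (hNs _ w hw).1

end Pool.Agent.W18.VO
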